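import Pool.Agent.Helper78.OB.N1A
import Pool.Agent.Helper46.OB.N1G

/-!
# Project OB (MP_0f6f3f_an), layer TZ, node 1: the frames

`gf1 γ`: the class of `κ(γ) dm(γ)`. `cov1`, `uc1`, `cpt1`: the properties of the frames for a stratum with the blocks `{0}`, `{1, ..., N - 2}`, `{N - 1}`.
-/

set_option autoImplicit false
set_option linter.unusedSectionVars false

open Filter Topology Matrix Pointwise

namespace Pool.Agent.Helper78.OB

open Pool.Agent.Helper90.RK Pool.Agent.Helper84.NI Pool.Agent.Helper78.BI Pool.Agent.Helper55.OB Pool.Agent.Helper9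
open Pool.Agent.Helper35.FP Pool.Agent.Helper55.TZ Pool.Agent.Helper84.GN.S3 Pool.Agent.Helper87.OB Pool.Agent.Helper84.OB
open Pool.Agent.Helper46.OB (em JP mid nb1 nbl1 nb1_prQJ nbl1_mem_KO continuous_nb1 mid_apply em_inj nbl1_orth)
open Pool.Agent.Helper9.Lin (cjM cjM_apply cjM_mul cjM_add cjM_one cjM_star cjM_cjM)

variable {N : ℕ} {G : Type} [Group G] {P : PH G N} {S : Sv P} (h : SO2 P S) {q : Fin N} (hq : (q : ℕ) = 0)

theorem md_em (i : Fin (N - 2)) : md (em N i) := by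
  unfold md
  rw [Pool.Agent.Helper46.OB.em_val]
  have := i.2
  push Not
  constructor <;> omega

include hq in
/-- orthogonal middle blocks -/
theorem mid_gram (hN : 5 ≤ N) {A : MN N} (hA : cjM A = A) (hg : (Em q * A * Em q)ᴴ * (Em q * A * Em q) = Em q) :
    (mid A)ᵀ * mid A = 1 := by
  ext i j
  have h1 := congrArg Complex.re (congrFun (congrFun hg (em N i)) (em N j))
  rw [Matrix.mul_apply, Complex.re_sum] at h1
  have h2 : (Em q (em N i) (em N j)).re = (1 : Matrix (Fin (N - 2)) (Fin (N - 2)) ℝ) i j := by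
    rw [Em_md hN hq, diagonal_apply, Matrix.one_apply]
    by_cases hij : i = j
    · rw [if_pos (congrArg _ hij), if_pos hij, if_pos (md_em i), Complex.one_re]
    · rw [if_neg (fun h' => hij (em_inj h')), if_neg hij, Complex.zero_re]
  rw [← h2, ← h1, Matrix.mul_apply]
  refine Fintype.sum_of_injective (em N) em_inj _ _ (fun k hk => ?_) fun k => ?_
  · have hk' : ¬ md k := by
      unfold md
      rw [not_not]
      exact Pool.Agent.Helper46.OB.notMem_em hk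
    rw [Em_mul_Em_apply hN hq, if_neg (fun h' => hk' h'.1), mul_zero, Complex.zero_re]
  · rw [Matrix.conjTranspose_apply, Em_mul_Em_apply hN hq, Em_mul_Em_apply hN hq, if_pos ⟨md_em k, md_em i⟩, if_pos ⟨md_em k, md_em j⟩,
      Matrix.transpose_apply, mid_apply, mid_apply, Complex.mul_re, Pool.Agent.Helper46.OB.im_real hA, mul_zero, sub_zero,
      RCLike.star_def, Complex.conj_re]

theorem κ_mem1 (γ : G) : (fraJ h q).κ γ ∈ MJ h.hN q := by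
  rw [mem_MJ, Fra.mt_κ, ← tr_eq_star (h.realR γ)]
  exact h.formR γ

/-- The points. -/
noncomputable def gf1 (q : Fin N) (γ : G) : GJ h.hN q :=
  prJ h.hN q ⟨(fraJ h q).κ γ * dm S q γ, (MJ h.hN q).mul_mem (κ_mem1 h γ) (dm_mem h γ).1⟩

theorem gf1_eq (γ : G) : gf1 h q γ = prJ h.hN q ⟨(fraJ h q).κ γ, κ_mem1 h γ⟩ * (prQJ h.hN q ⟨dm S q γ, dm_mem h γ⟩ : QJ h.hN q) :=
  map_mul (prJ h.hN q) ⟨(fraJ h q).κ γ, κ_mem1 h γ⟩ ⟨dm S q γ, (dm_mem h γ).1⟩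

include hq in
/-- **Covariance.** -/
theorem cov1 (T : Str S) (hb : ∀ i, T.b i = 0 ↔ i ≤ q) (hT : ∀ i j : Fin N, md i → (T.b i = T.b j ↔ md j)) {f : GJ h.hN q → ℂ}
    (hfc : Continuous f) (hfi : ∀ (g : GJ h.hN q) (x : QJ h.hN q), nb1 h.hN hq x ∈ KO (JP N) → f (g * (x : GJ h.hN q)) = f g) (k : G) (n : ℕ) :
    Tendsto (fun γ => f (gf1 h q (γ * k)) - f ((irJ h q k)⁻¹ * gf1 h q γ)) (T.F n) (𝓝 0) := by
  rw [tendsto_iff_ultrafilter]
  intro 𝒰 h𝒰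
  have bd : ∀ n, ∃ R : ℝ, ∀ γ ∈ T.W n, dm S q γ ∈ (sr q).Bl R := by
    intro n
    obtain ⟨K, hK⟩ := T.cpt n
    exact ⟨_, fun γ hγ => dm_bound h fun i j hi hj => hK γ hγ i j ((hT i j hi).2 hj)⟩
  obtain ⟨R, hR⟩ := bd n
  obtain ⟨n', hn'⟩ := T.shift 1 k n
  obtain ⟨R', hR'⟩ := bd n'
  have e0 : ∀ᶠ γ in (𝒰 : Filter G), dm S q γ ∈ (sr q).Bl R := by
    filter_upwards [h𝒰 (le_principal_iff.1 (T.le n))] with γ hγ
    exact hR γ hγ
  have e1 : ∀ᶠ γ in (𝒰 : Filter G), dm S q (γ * k) ∈ (sr q).Bl R' := by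
    filter_upwards [h𝒰 (hn' (le_principal_iff.1 (T.le n')))] with γ hγ
    have h2 := hR' _ hγ
    simp only [inv_one, one_mul] at h2
    exact h2
  obtain ⟨κ0, -, hκ0⟩ := Fra.exists_lim 𝒰 (sr q).isCompact_UU (f := (fraJ h q).κ) (Eventually.of_forall fun γ => S.uR γ)
  obtain ⟨κ1, -, hκ1⟩ := Fra.exists_lim 𝒰 (sr q).isCompact_UU (f := fun γ => (fraJ h q).κ (γ * k)) (Eventually.of_forall fun γ => S.uR _)
  obtain ⟨d0, -, hd0⟩ := Fra.exists_lim 𝒰 ((sr q).isCompact_ball R) e0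
  obtain ⟨d1, -, hd1⟩ := Fra.exists_lim 𝒰 ((sr q).isCompact_ball R') e1
  obtain ⟨hx, hu⟩ := lim_pq h hq T hb hT k h𝒰 hκ0 hκ1 hd0 hd1
  have he0 : Tendsto (fun γ => (fraJ h q).κ γ * dm S q γ) 𝒰 (𝓝 (κ0 * d0)) := hκ0.mul hd0
  have he1 : Tendsto (fun γ => (fraJ h q).κ (γ * k) * dm S q (γ * k)) 𝒰 (𝓝 (κ1 * d1)) := hκ1.mul hd1
  obtain ⟨g0, hg0⟩ : ∃ g0 : (sr q).M, g0 = κ0 * d0 := ⟨_, rfl⟩
  obtain ⟨g1, hg1⟩ : ∃ g1 : (sr q).M, g1 = κ1 * d1 := ⟨_, rfl⟩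
  rw [← hg0, ← hg1] at hx hu
  rw [← hg0] at he0
  rw [← hg1] at he1
  have m0 : g0 ∈ MJ h.hN q := (isClosed_MJ h.hN q).mem_of_tendsto he0
    (Eventually.of_forall fun γ => (MJ h.hN q).mul_mem (κ_mem1 h γ) (dm_mem h γ).1)
  have m1 : g1 ∈ MJ h.hN q := (isClosed_MJ h.hN q).mem_of_tendsto he1
    (Eventually.of_forall fun γ => (MJ h.hN q).mul_mem (κ_mem1 h _) (dm_mem h _).1)
  have t0 : Tendsto (gf1 h q) 𝒰 (𝓝 (prJ h.hN q ⟨g0, m0⟩)) :=
    ((continuous_prJ h.hN q).tendsto _).comp (tendsto_subtype_rng.2 he0)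
  have t1 : Tendsto (fun γ => gf1 h q (γ * k)) 𝒰 (𝓝 (prJ h.hN q ⟨g1, m1⟩)) :=
    ((continuous_prJ h.hN q).tendsto _).comp (tendsto_subtype_rng.2 he1)
  have l1 : Tendsto (fun γ => f (gf1 h q (γ * k))) 𝒰 (𝓝 (f (prJ h.hN q ⟨g1, m1⟩))) := (hfc.tendsto _).comp t1
  have l2 : Tendsto (fun γ => f ((irJ h q k)⁻¹ * gf1 h q γ)) 𝒰 (𝓝 (f ((irJ h q k)⁻¹ * prJ h.hN q ⟨g0, m0⟩))) :=
    ((hfc.comp (continuous_const.mul continuous_id)).tendsto _).comp t0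
  have mx : g0⁻¹ * (fraJ h q).ie k * g1 ∈ HQ h.hN q :=
    ⟨(MJ h.hN q).mul_mem ((MJ h.hN q).mul_mem ((MJ h.hN q).inv_mem m0) (ie_mem h k)) m1, hx⟩
  have h3 : f (prJ h.hN q ⟨g1, m1⟩) = f ((irJ h q k)⁻¹ * prJ h.hN q ⟨g0, m0⟩) := by
    have h4 : prJ h.hN q ⟨g1, m1⟩ = (irJ h q k)⁻¹ * prJ h.hN q ⟨g0, m0⟩ * (prQJ h.hN q ⟨_, mx⟩ : QJ h.hN q) := by
      refine Subtype.ext ?_
      change (sr q).pr g1 = ((sr q).pr ((fraJ h q).ie k))⁻¹ * (sr q).pr g0 * (sr q).pr (g0⁻¹ * (fraJ h q).ie k * g1)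
      rw [← map_inv, ← map_mul, ← map_mul]
      congr 1
      group
    rw [h4]
    refine hfi _ (prQJ h.hN q ⟨_, mx⟩) ?_
    rw [nb1_prQJ]
    exact nbl1_mem_KO h.hN hq (mid_gram hq h.hN ((sr q).σ_mt _) hu)
  have l3 := l1.sub l2
  rw [h3, sub_self] at l3
  exact l3

theorem gf1_Yf {f : GJ h.hN q → ℂ} (hfi : ∀ (g : GJ h.hN q) (x : QJ h.hN q), f (g * (x : GJ h.hN q)) = f g) (γ : G) :
    f (gf1 h q γ) = f (prJ h.hN q ⟨(fraJ h q).κ γ, κ_mem1 h γ⟩) := by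
  rw [gf1_eq]
  exact hfi _ (prQJ h.hN q ⟨dm S q γ, dm_mem h γ⟩)

/-- **The functions on `GJ / QJ` are uniformly continuous functions of the position.** -/
theorem uc1 {b : Fin N → ℕ} (hb : ∀ i, b i = 0 ↔ i ≤ q) {f : GJ h.hN q → ℂ} (hfc : Continuous f)
    (hfi : ∀ (g : GJ h.hN q) (x : QJ h.hN q), f (g * (x : GJ h.hN q)) = f g) :
    UC (posPD S b) fun γ => f (gf1 h q γ) := by
  by_contra hne
  unfold UC at hne
  push Not at hne
  obtain ⟨ε, hε, h'⟩ := hne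
  have h' : ∀ n : ℕ, ∃ γ γ' : G, (posPD S b).d γ γ' < 1 / ((n : ℝ) + 1) ∧ ε < ‖f (gf1 h q γ) - f (gf1 h q γ')‖ := fun n =>
    h' _ (by positivity)
  choose u v huv huv' using h'
  let 𝒰 : Ultrafilter ℕ := hyperfilter ℕ
  obtain ⟨κ0, hU0, hκ0⟩ := Fra.exists_lim 𝒰 (sr q).isCompact_UU (f := fun n => (fraJ h q).κ (u n)) (Eventually.of_forall fun γ => S.uR _)
  obtain ⟨κ1, hU1, hκ1⟩ := Fra.exists_lim 𝒰 (sr q).isCompact_UU (f := fun n => (fraJ h q).κ (v n)) (Eventually.of_forall fun γ => S.uR _)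
  have m0 : κ0 ∈ MJ h.hN q := (isClosed_MJ h.hN q).mem_of_tendsto hκ0 (Eventually.of_forall fun γ => κ_mem1 h _)
  have m1 : κ1 ∈ MJ h.hN q := (isClosed_MJ h.hN q).mem_of_tendsto hκ1 (Eventually.of_forall fun γ => κ_mem1 h _)
  have l0 : Tendsto (fun n => f (gf1 h q (u n))) 𝒰 (𝓝 (f (prJ h.hN q ⟨κ0, m0⟩))) := by
    simp only [gf1_Yf h hfi]
    exact ((hfc.comp (continuous_prJ h.hN q)).tendsto _).comp (tendsto_subtype_rng.2 hκ0)
  have l1 : Tendsto (fun n => f (gf1 h q (v n))) 𝒰 (𝓝 (f (prJ h.hN q ⟨κ1, m1⟩))) := by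
    simp only [gf1_Yf h hfi]
    exact ((hfc.comp (continuous_prJ h.hN q)).tendsto _).comp (tendsto_subtype_rng.2 hκ1)
  have hproj : (sr q).mt κ0 * Ef q * ((sr q).mt κ0)ᴴ = (sr q).mt κ1 * Ef q * ((sr q).mt κ1)ᴴ := by
    have hc : Continuous fun g : (sr q).M => (sr q).mt g * Ef q * ((sr q).mt g)ᴴ :=
      ((sr q).continuous_mt.mul continuous_const).mul (sr q).continuous_mt.matrix_conjTranspose
    have a0 := ((hc.tendsto _).comp hκ0)
    have a1 := ((hc.tendsto _).comp hκ1)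
    have hd : Tendsto (fun n => (posPD S b).d (u n) (v n)) (𝒰 : Filter ℕ) (𝓝 0) := by
      have h1 : Tendsto (fun n : ℕ => 1 / ((n : ℝ) + 1)) (𝒰 : Filter ℕ) (𝓝 0) :=
        tendsto_one_div_add_atTop_nhds_zero_nat.mono_left Nat.hyperfilter_le_atTop
      exact squeeze_zero (fun n => Pool.Agent.Helper78.BM.d_nonneg _ _ _) (fun n => (huv n).le) h1
    ext i j
    have a0' := ((continuous_id.matrix_elem i j).tendsto _).comp a0
    have a1' := ((continuous_id.matrix_elem i j).tendsto _).comp a1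
    have a2 := a0'.sub a1'
    have hz : Tendsto (fun n => (S.kR (u n) * Ef q * (S.kR (u n))ᴴ) i j - (S.kR (v n) * Ef q * (S.kR (v n))ᴴ) i j)
        (𝒰 : Filter ℕ) (𝓝 0) := by
      rw [tendsto_zero_iff_norm_tendsto_zero]
      refine squeeze_zero (fun n => norm_nonneg _) (fun n => ?_) hd
      have hpos : ∀ γ, pos S b γ q = S.kR γ * Ef q * (S.kR γ)ᴴ := by
        intro γ
        unfold pos Ef
        congr 3
        funext i
        rw [(hb q).2 le_rfl]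
        by_cases hi : i ≤ q
        · rw [if_pos ((hb i).2 hi), if_pos hi]
        · rw [if_neg (fun h => hi ((hb i).1 h)), if_neg hi]
      have h1 : ‖(pos S b (u n) q - pos S b (v n) q) i j‖ ≤ Real.sqrt (ns (pos S b (u n) q - pos S b (v n) q)) :=
        Pool.Agent.Helper90.RK.norm_apply_le' _ i j
      rw [hpos, hpos, Matrix.sub_apply] at h1
      refine h1.trans ?_
      change _ ≤ pdist S b (u n) (v n)
      unfold pdist
      rw [← hpos, ← hpos]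
      exact Finset.single_le_sum (f := fun j => Real.sqrt (ns (pos S b (u n) j - pos S b (v n) j)))
        (fun j _ => Real.sqrt_nonneg _) (Finset.mem_univ q)
    exact sub_eq_zero.1 (tendsto_nhds_unique a2 hz)
  have hqq : κ0⁻¹ * κ1 ∈ (sr q).Qh := by
    have u0 : ((sr q).mt κ0)ᴴ * (sr q).mt κ0 = 1 := hU0
    have u1 : ((sr q).mt κ1)ᴴ * (sr q).mt κ1 = 1 := hU1
    have i0 : (sr q).mt κ0⁻¹ = ((sr q).mt κ0)ᴴ := by
      calc (sr q).mt κ0⁻¹ = ((sr q).mt κ0)ᴴ * (sr q).mt κ0 * (sr q).mt κ0⁻¹ := by rw [u0, Matrix.one_mul]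
        _ = _ := by rw [Matrix.mul_assoc, (sr q).mt_mul_inv, Matrix.mul_one]
    change Lb q ((sr q).mt (κ0⁻¹ * κ1))
    rw [Sg.mt_mul, i0]
    unfold Lb
    calc Ef q * (((sr q).mt κ0)ᴴ * (sr q).mt κ1) * Ee q
        = ((sr q).mt κ0)ᴴ * ((sr q).mt κ0 * Ef q * ((sr q).mt κ0)ᴴ) * (sr q).mt κ1 * Ee q := by
          have : ((sr q).mt κ0)ᴴ * ((sr q).mt κ0 * Ef q * ((sr q).mt κ0)ᴴ) = Ef q * ((sr q).mt κ0)ᴴ := by
            rw [← Matrix.mul_assoc, ← Matrix.mul_assoc, u0, Matrix.one_mul]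
          rw [this]
          simp only [Matrix.mul_assoc]
      _ = ((sr q).mt κ0)ᴴ * (sr q).mt κ1 * Ef q * (((sr q).mt κ1)ᴴ * (sr q).mt κ1) * Ee q := by
          rw [hproj]
          simp only [Matrix.mul_assoc]
      _ = 0 := by rw [u1, Matrix.mul_one, Matrix.mul_assoc, Ef_Ee, Matrix.mul_zero]
  have mq : κ0⁻¹ * κ1 ∈ HQ h.hN q := ⟨(MJ h.hN q).mul_mem ((MJ h.hN q).inv_mem m0) m1, hqq⟩
  have h3 : f (prJ h.hN q ⟨κ1, m1⟩) = f (prJ h.hN q ⟨κ0, m0⟩) := by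
    have h4 := hfi (prJ h.hN q ⟨κ0, m0⟩) (prQJ h.hN q ⟨_, mq⟩)
    have h5 : prJ h.hN q ⟨κ0, m0⟩ * (prQJ h.hN q ⟨_, mq⟩ : QJ h.hN q) = prJ h.hN q ⟨κ1, m1⟩ := by
      refine Subtype.ext ?_
      change (sr q).pr κ0 * (sr q).pr (κ0⁻¹ * κ1) = (sr q).pr κ1
      rw [← map_mul, mul_inv_cancel_left]
    rw [← h5]
    exact h4
  have l3 := (l0.sub l1).norm
  rw [h3, sub_self, norm_zero] at l3
  exact absurd (ge_of_tendsto l3 (Eventually.of_forall fun n => (huv' n).le)) (not_le.2 hε)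

/-- Orthogonal elements which differ by an element of `QJ`. -/
theorem KK_1 (hN : 5 ≤ N) {g g' : GJ hN q} (hg : g ∈ prJ hN q '' UJ hN) (hg' : g' ∈ prJ hN q '' UJ hN) (x : QJ hN q) (h : g = g' * x) :
    nb1 hN hq x ∈ KO (JP N) := by
  obtain ⟨u, hu, rfl⟩ := hg
  obtain ⟨u', hu', rfl⟩ := hg'
  obtain ⟨y, rfl⟩ := prQJ_surj hN q x
  rw [nb1_prQJ]
  have h1 : (sr q).pr (u : (sr q).M) = (sr q).pr ((u' : (sr q).M) * (y : (sr q).M)) := by
    rw [map_mul]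
    exact congrArg Subtype.val h
  have h2 : (u : (sr q).M)⁻¹ * ((u' : (sr q).M) * (y : (sr q).M)) ∈ (sr q).Z0 := QuotientGroup.eq.1 h1
  obtain ⟨c, hc, h3⟩ := h2
  refine nbl1_orth hN hq ?_
  have e1 : (sr q).mt ((u' : (sr q).M) * (y : (sr q).M)) = c • (sr q).mt (u : (sr q).M) := by
    have h4 : (u' : (sr q).M) * (y : (sr q).M) = (u : (sr q).M) * ((u : (sr q).M)⁻¹ * ((u' : (sr q).M) * (y : (sr q).M))) := by
      rw [mul_inv_cancel_left]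
    rw [h4, Sg.mt_mul, h3, Matrix.mul_smul, Matrix.mul_one]
  have hcc := star_mul_self_of_norm hc
  have u1 : ((sr q).mt (u : (sr q).M))ᴴ * (sr q).mt (u : (sr q).M) = 1 := hu
  have u2 : ((sr q).mt (u' : (sr q).M))ᴴ * (sr q).mt (u' : (sr q).M) = 1 := hu'
  change ((sr q).mt (y : (sr q).M))ᴴ * (sr q).mt (y : (sr q).M) = 1
  calc ((sr q).mt (y : (sr q).M))ᴴ * (sr q).mt (y : (sr q).M)
      = ((sr q).mt (y : (sr q).M))ᴴ * (((sr q).mt (u' : (sr q).M))ᴴ * (sr q).mt (u' : (sr q).M)) * (sr q).mt (y : (sr q).M) := by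
        rw [u2, Matrix.mul_one]
    _ = ((sr q).mt ((u' : (sr q).M) * (y : (sr q).M)))ᴴ * (sr q).mt ((u' : (sr q).M) * (y : (sr q).M)) := by
        rw [Sg.mt_mul, conjTranspose_mul]
        simp only [Matrix.mul_assoc]
    _ = 1 := by
        rw [e1, conjTranspose_smul, Matrix.smul_mul, Matrix.mul_smul, smul_smul, hcc, one_smul, u1]

/-- **The blocks in the regions stay in a compact set.** -/
theorem cpt1 {r : GJ h.hN q → QJ h.hN q} (hr : ∀ x, x * (r x : GJ h.hN q)⁻¹ ∈ prJ h.hN q '' UJ h.hN) (hKc : IsCompact (KO (JP N) : Set (OJ (JP N))))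
    {W : Set G} {K : ℝ} (hK : ∀ γ ∈ W, ∀ i j : Fin N, md i → md j → S.s γ i ≤ K * S.s γ j) :
    ∃ B : Set (OJ (JP N)), IsCompact B ∧ ∀ γ ∈ W, nb1 h.hN hq (r (gf1 h q γ)) ∈ B := by
  have c1 : IsCompact (nb1 h.hN hq '' (prQJ h.hN q '' (Subtype.val ⁻¹' ((sr q).Bl (max K 1))))) := by
    have hcl : IsClosed (HQ h.hN q : Set (sr q).M) := (isClosed_MJ h.hN q).inter Fra.isClosed_Qh
    exact (((hcl.isClosedEmbedding_subtypeVal.isCompact_preimage ((sr q).isCompact_ball _)).image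
      (continuous_prQJ h.hN q)).image (continuous_nb1 h.hN hq))
  refine ⟨(KO (JP N) : Set (OJ (JP N))) * (nb1 h.hN hq '' (prQJ h.hN q '' (Subtype.val ⁻¹' ((sr q).Bl (max K 1))))), hKc.mul c1,
    fun γ hγ => ?_⟩
  obtain ⟨x, hx⟩ : ∃ x : QJ h.hN q, x = prQJ h.hN q ⟨dm S q γ, dm_mem h γ⟩ := ⟨_, rfl⟩
  have e1 : nb1 h.hN hq (r (gf1 h q γ)) = nb1 h.hN hq (r (gf1 h q γ) * x⁻¹) * nb1 h.hN hq x := by
    rw [← map_mul, inv_mul_cancel_right]
  rw [e1]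
  refine Set.mul_mem_mul ?_ ?_
  · refine KK_1 hq h.hN (g := prJ h.hN q ⟨(fraJ h q).κ γ, κ_mem1 h γ⟩) ⟨_, S.uR γ, rfl⟩ (hr (gf1 h q γ)) _ ?_
    have e2 : prJ h.hN q ⟨(fraJ h q).κ γ, κ_mem1 h γ⟩ = gf1 h q γ * (x : GJ h.hN q)⁻¹ := by
      rw [gf1_eq, ← hx, mul_inv_cancel_right]
    rw [e2, Subgroup.coe_mul, Subgroup.coe_inv]
    group
  · rw [hx]
    exact ⟨_, ⟨_, dm_bound h (hK γ hγ), rfl⟩, rfl⟩

/-- **The frames.** -/
noncomputable def frm1 (T : Str S) (hb : ∀ i, T.b i = 0 ↔ i ≤ q) (hb1 : ∀ i : Fin N, T.b i = 1 ↔ (i : ℕ) ≠ 0 ∧ (i : ℕ) + 1 ≠ N) :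
    Frm (Pool.Agent.Helper46.OB.geo1 h.hN hq) T where
  ir := irJ h q
  gf := gf1 h q
  cov f hf k n := cov1 h hq T hb (fun i j hi => by
    have h1 : ∀ i : Fin N, T.b i = 1 ↔ md i := fun i => by
      rw [hb1]
      unfold md
      push Not
      exact Iff.rfl
    rw [(h1 i).2 hi, eq_comm, h1]) hf.cont hf.inv k n
  uc f hf := uc1 h hb hf.cont hf.inv
  cpt n := by
    obtain ⟨K, hK⟩ := T.cpt n
    refine cpt1 h hq (Pool.Agent.Helper46.OB.kr_1 h.hN hq) isCompact_KO (K := K) fun γ hγ i j hi hj => hK γ hγ i j ?_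
    have h1 : ∀ i : Fin N, md i → T.b i = 1 := fun i hi => by
      rw [hb1]
      unfold md at hi
      push Not at hi
      exact hi
    rw [h1 i hi, h1 j hj]

end Pool.Agent.Helper78.OB
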