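import Pool.Agent.Helper87.OB.N2F
import Pool.Agent.Helper46.OB.N1J

/-!
# Project OB (MP_0f6f3f_an), layer TZ, node 1: the points of the frames and the limits of the comparison elements

`dm γ = diag(1, 1/s_1, ..., 1/s_(N-2), 1)`, `md i`: the middle indices. `lim_pp1`: the limits of `(κ(γ) dm(γ))⁻¹ ι(k) κ(γ k) dm(γ k)` are elements of `MJ` of the parabolic group with an orthogonal middle block.
-/

set_option autoImplicit false
set_option linter.unusedSectionVars false

open Filter Topology Matrix Pointwise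

namespace Pool.Agent.Helper78.OB

open Pool.Agent.Helper90.RK Pool.Agent.Helper84.NI Pool.Agent.Helper78.BI Pool.Agent.Helper55.OB Pool.Agent.Helper9
open Pool.Agent.Helper35.FP Pool.Agent.Helper55.TZ Pool.Agent.Helper84.GN.S3 Pool.Agent.Helper87.OB
open Pool.Agent.Helper9.Lin (cjM cjM_apply cjM_mul cjM_add cjM_one cjM_star cjM_cjM)

/-- the middle indices -/
def md {N : ℕ} (i : Fin N) : Prop := ¬ ((i : ℕ) = 0 ∨ (i : ℕ) + 1 = N)

instance {N : ℕ} : DecidablePred (md (N := N)) := fun _ => inferInstanceAs (Decidable (¬ _))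

variable {N : ℕ} {G : Type} [Group G] {P : PH G N} {S : Sv P} (h : SO2 P S) {q : Fin N}

/-- the diagonal -/
noncomputable def dv (S : Sv P) (γ : G) (i : Fin N) : ℝ := if md i then (S.s γ i)⁻¹ else 1

theorem dv_pos (γ : G) (i : Fin N) : 0 < dv S γ i := by
  unfold dv
  split_ifs
  · exact inv_pos.2 (S.pos γ i)
  · exact one_pos

include h in
theorem dv_jj (γ : G) (i : Fin N) : dv S γ i * dv S γ (jj N i) = 1 := by
  have hN := h.hN
  have h1 := jj_val hN i
  have hi := i.2
  unfold dv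
  by_cases hm : md i
  · have hm' : md (jj N i) := by
      unfold md at hm ⊢
      rw [h1]
      push Not at hm ⊢
      split_ifs <;> omega
    rw [if_pos hm, if_pos hm', ← mul_inv]
    unfold md at hm
    push Not at hm
    by_cases h2 : (i : ℕ) < 2 ∨ N ≤ (i : ℕ) + 2
    · have h3 : jj N i = i.rev := if_pos h2
      rw [h3, h.inv, inv_one]
    · have h3 : jj N i = i := if_neg h2
      push Not at h2
      rw [h3, h.mid γ i (by omega) (by omega), mul_one, inv_one]
  · have hm' : ¬ md (jj N i) := by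
      unfold md at hm ⊢
      rw [h1]
      push Not at hm ⊢
      rcases hm with h2 | h2
      · rw [if_pos (Or.inl (by omega))]
        right
        omega
      · rw [if_pos (Or.inr (by omega))]
        left
        omega
    rw [if_neg hm, if_neg hm', mul_one]

theorem dv_mul (γ : G) :
    (diagonal fun i => (dv S γ i : ℂ)) * (diagonal fun i => ((dv S γ i : ℂ))⁻¹) = (1 : MN N) := by
  rw [diagonal_mul_diagonal, ← diagonal_one]
  congr 1
  funext i
  exact mul_inv_cancel₀ (Complex.ofReal_ne_zero.2 (dv_pos γ i).ne')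

/-- The diagonal element. -/
noncomputable def dm (S : Sv P) (q : Fin N) (γ : G) : (sr q).M :=
  (sr q).mkm _ _ (dv_mul (S := S) γ) (cjM_diag_real _)

theorem mt_dm (γ : G) : (sr q).mt (dm S q γ) = diagonal fun i => (dv S γ i : ℂ) := rfl

theorem mt_dm_inv (γ : G) : (sr q).mt (dm S q γ)⁻¹ = diagonal fun i => ((dv S γ i : ℂ))⁻¹ := rfl

include h in
theorem dm_mem (γ : G) : dm S q γ ∈ HQ h.hN q := by
  refine ⟨?_, ?_⟩
  · change dm S q γ ∈ MJ h.hN q
    rw [mem_MJ, mt_dm]
    ext i j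
    rw [diagonal_conjTranspose, mul_diagonal, diagonal_mul, JJ_apply]
    by_cases hj : j = jj N i
    · rw [if_pos hj, mul_one, hj, Pi.star_apply, RCLike.star_def, Complex.conj_ofReal]
      exact_mod_cast dv_jj h γ i
    · rw [if_neg hj, mul_zero, zero_mul]
  · change Lb q ((sr q).mt (dm S q γ))
    rw [mt_dm]
    exact Fra.lb_diag _

theorem Em_md (hN : 5 ≤ N) (hq : (q : ℕ) = 0) : Em q = diagonal fun i => if md i then (1 : ℂ) else 0 := by
  unfold Em Ef
  rw [E2_diag hN, ← diagonal_one, diagonal_sub, diagonal_sub]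
  congr 1
  funext i
  have h1 := Pool.Agent.Helper46.OB.jj_le_iff0 hN hq i
  have h2 := Pool.Agent.Helper46.OB.le_q_iff hq i
  have hi := i.2
  unfold md
  by_cases a : i ≤ q
  · have b : ¬ jj N i ≤ q := by
      rw [h1]
      have := h2.1 a
      omega
    rw [if_pos a, if_neg b, if_neg (not_not.2 (Or.inl (h2.1 a)))]
    norm_num
  · by_cases b : jj N i ≤ q
    · rw [if_neg a, if_pos b, if_neg (not_not.2 (Or.inr (h1.1 b)))]
      norm_num
    · rw [if_neg a, if_neg b, if_pos (by rw [h1] at b; rw [h2] at a; tauto)]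
      norm_num

theorem Em_mul_Em_apply (hN : 5 ≤ N) (hq : (q : ℕ) = 0) (A : MN N) (i j : Fin N) :
    (Em q * A * Em q) i j = if md i ∧ md j then A i j else 0 := by
  rw [Em_md hN hq, mul_diagonal, diagonal_mul]
  by_cases hi : md i <;> by_cases hj : md j <;> simp [hi, hj]

/-- the comparison element -/
noncomputable def pq (k γ : G) : (sr q).M :=
  ((fraJ h q).κ γ * dm S q γ)⁻¹ * (fraJ h q).ie k * ((fraJ h q).κ (γ * k) * dm S q (γ * k))

theorem mt_pq (k γ : G) : (sr q).mt (pq h (q := q) k γ) = (sr q).mt (dm S q γ)⁻¹ * S.m 1 k γ * (sr q).mt (dm S q (γ * k)) := by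
  unfold pq Sv.m
  rw [_root_.mul_inv_rev, Sg.mt_mul, Sg.mt_mul, Sg.mt_mul, Sg.mt_mul, Fra.mt_κ, Fra.mt_κ_inv, Fra.mt_ie, inv_one, one_mul]
  simp only [Matrix.mul_assoc]

/-- the middle block of the comparison element -/
theorem block_pq (hq : (q : ℕ) = 0) (T : Str S) (hT : ∀ i j : Fin N, md i → (T.b i = T.b j ↔ md j)) {k γ : G} {O : MN N} {c : ℂ}
    (hc : T.C 1 k γ * S.X (γ * k) = c • (S.X γ * O)) :
    Em q * (sr q).mt (pq h (q := q) k γ) * Em q = c • (Em q * O * Em q) := by
  ext i j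
  rw [Matrix.smul_apply, Em_mul_Em_apply h.hN hq, Em_mul_Em_apply h.hN hq]
  by_cases hij : md i ∧ md j
  · rw [if_pos hij, if_pos hij, mt_pq, mt_dm, mt_dm_inv, mul_diagonal, diagonal_mul]
    have h1 := congrFun (congrFun hc i) j
    have hX : ∀ γ' : G, S.X γ' = diagonal (fun k : Fin N => ((S.s γ' k)⁻¹ : ℂ)) := fun γ' => rfl
    rw [Matrix.smul_apply, hX, hX, Matrix.mul_diagonal, Matrix.diagonal_mul] at h1
    unfold Str.C at h1
    rw [D_apply, if_pos ((hT i j hij.1).2 hij.2)] at h1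
    have e1 : dv S γ i = (S.s γ i)⁻¹ := if_pos hij.1
    have e2 : dv S (γ * k) j = (S.s (γ * k) j)⁻¹ := if_pos hij.2
    have hi : (S.s γ i : ℂ) ≠ 0 := Complex.ofReal_ne_zero.2 (S.pos γ i).ne'
    rw [e1, e2]
    push_cast
    rw [inv_inv]
    rw [smul_eq_mul] at h1 ⊢
    calc (S.s γ i : ℂ) * S.m 1 k γ i j * (S.s (γ * k) j : ℂ)⁻¹ = (S.s γ i : ℂ) * (S.m 1 k γ i j * (S.s (γ * k) j : ℂ)⁻¹) := by
          rw [mul_assoc]
      _ = (S.s γ i : ℂ) * (c * ((S.s γ i : ℂ)⁻¹ * O i j)) := by rw [h1]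
      _ = c * O i j := by field_simp
  · rw [if_neg hij, if_neg hij, smul_zero]

/-- the gram matrix of the middle block -/
theorem gram_pq (hq : (q : ℕ) = 0) (T : Str S) (hT : ∀ i j : Fin N, md i → (T.b i = T.b j ↔ md j)) {k γ : G} {O : MN N} {c : ℂ} (hO : D T.b O = O) (hc1 : ‖c‖ = 1)
    (hc : T.C 1 k γ * S.X (γ * k) = c • (S.X γ * O)) :
    (Em q * (sr q).mt (pq h (q := q) k γ) * Em q)ᴴ * (Em q * (sr q).mt (pq h (q := q) k γ) * Em q) = Em q * (Oᴴ * O) * Em q := by
  have hcom : Em q * O = O * Em q := by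
    ext i j
    rw [Em_md h.hN hq, mul_diagonal, diagonal_mul, ← hO, D_apply]
    by_cases hb : T.b i = T.b j
    · rw [if_pos hb]
      by_cases hi : md i
      · rw [if_pos hi, if_pos ((hT i j hi).1 hb), one_mul, mul_one]
      · rw [if_neg hi, if_neg (fun hj => hi ((hT j i hj).1 hb.symm)), zero_mul, mul_zero]
    · rw [if_neg hb, mul_zero, zero_mul]
  rw [block_pq h hq T hT hc, conjTranspose_smul, Matrix.smul_mul, Matrix.mul_smul, smul_smul]
  have h2 : star c * c = 1 := by
    rw [RCLike.star_def, ← Complex.normSq_eq_conj_mul_self, Complex.normSq_eq_norm_sq, hc1]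
    norm_num
  rw [h2, one_smul, conjTranspose_mul, conjTranspose_mul, Em_star h.hN]
  calc Em q * (Oᴴ * Em q) * (Em q * O * Em q) = Em q * Oᴴ * (Em q * Em q) * (O * Em q) := by simp only [Matrix.mul_assoc]
    _ = Em q * Oᴴ * (Em q * O) * Em q := by
        rw [Pool.Agent.Helper46.OB.Em_Em h.hN hq]
        simp only [Matrix.mul_assoc]
    _ = Em q * Oᴴ * O * (Em q * Em q) := by
        rw [hcom]
        simp only [Matrix.mul_assoc]
    _ = _ := by
        rw [Pool.Agent.Helper46.OB.Em_Em h.hN hq]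
        simp only [Matrix.mul_assoc]

/-- The limits of the comparison elements are elements of `Qh` with an orthogonal middle block. -/
theorem lim_pq (hq : (q : ℕ) = 0) (T : Str S) (hb : ∀ i, T.b i = 0 ↔ i ≤ q) (hT : ∀ i j : Fin N, md i → (T.b i = T.b j ↔ md j)) (k : G) {n : ℕ}
    {l : Filter G} [l.NeBot] (hl : l ≤ T.F n) {κ0 κ1 d0 d1 : (sr q).M} (h0 : Tendsto (fraJ h q).κ l (𝓝 κ0))
    (h1 : Tendsto (fun γ => (fraJ h q).κ (γ * k)) l (𝓝 κ1))
    (hd0 : Tendsto (dm S q) l (𝓝 d0)) (hd1 : Tendsto (fun γ => dm S q (γ * k)) l (𝓝 d1)) :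
    (κ0 * d0)⁻¹ * (fraJ h q).ie k * (κ1 * d1) ∈ (sr q).Qh ∧
      (Em q * (sr q).mt ((κ0 * d0)⁻¹ * (fraJ h q).ie k * (κ1 * d1)) * Em q)ᴴ *
        (Em q * (sr q).mt ((κ0 * d0)⁻¹ * (fraJ h q).ie k * (κ1 * d1)) * Em q) = Em q := by
  have hp : Tendsto (pq h (q := q) k) l (𝓝 ((κ0 * d0)⁻¹ * (fraJ h q).ie k * (κ1 * d1))) :=
    ((h0.mul hd0).inv.mul_const _).mul (h1.mul hd1)
  have q0 : d0 ∈ (sr q).Qh := Fra.isClosed_Qh.mem_of_tendsto hd0 (Eventually.of_forall fun γ => (dm_mem h (q := q) γ).2)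
  have q1 : d1 ∈ (sr q).Qh := Fra.isClosed_Qh.mem_of_tendsto hd1 (Eventually.of_forall fun γ => (dm_mem h (q := q) _).2)
  have qm : κ0⁻¹ * (fraJ h q).ie k * κ1 ∈ (sr q).Qh := by
    have hm : Tendsto (fun γ => ((fraJ h q).κ γ)⁻¹ * (fraJ h q).ie k * (fraJ h q).κ (γ * k)) l (𝓝 (κ0⁻¹ * (fraJ h q).ie k * κ1)) :=
      (h0.inv.mul_const _).mul h1
    have hm' := ((sr q).continuous_mt.tendsto _).comp hm
    rw [Sg.mem_Qh, lb_iff]
    intro i j hi hj
    have h2 : Tendsto (fun γ => (sr q).mt (((fraJ h q).κ γ)⁻¹ * (fraJ h q).ie k * (fraJ h q).κ (γ * k)) i j) l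
        (𝓝 ((sr q).mt (κ0⁻¹ * (fraJ h q).ie k * κ1) i j)) :=
      ((continuous_id.matrix_elem i j).tendsto _).comp hm'
    have h3 := (T.tendsto_m 1 k n (i := i) (j := j) (by
      rw [(hb i).2 hi]
      exact Nat.pos_of_ne_zero fun h => absurd ((hb j).1 h) (not_le.2 hj))).mono_left hl
    refine tendsto_nhds_unique h2 (h3.congr fun γ => ?_)
    unfold Sv.m
    rw [Sg.mt_mul, Sg.mt_mul, Fra.mt_κ, Fra.mt_κ_inv, Fra.mt_ie, inv_one, one_mul]
  have hpq : (κ0 * d0)⁻¹ * (fraJ h q).ie k * (κ1 * d1) ∈ (sr q).Qh := by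
    have h2 : (κ0 * d0)⁻¹ * (fraJ h q).ie k * (κ1 * d1) = d0⁻¹ * (κ0⁻¹ * (fraJ h q).ie k * κ1) * d1 := by group
    rw [h2]
    exact (sr q).Qh.mul_mem ((sr q).Qh.mul_mem ((sr q).Qh.inv_mem q0) qm) q1
  refine ⟨hpq, ?_⟩
  obtain ⟨O, hO, hc, hlim⟩ := T.C_right k
  have hpm := ((sr q).continuous_mt.tendsto _).comp hp
  have hcA : Continuous fun A : MN N => (Em q * A * Em q)ᴴ * (Em q * A * Em q) := by
    have h2 : Continuous fun A : MN N => Em q * A * Em q := (continuous_const.mul continuous_id).mul continuous_const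
    exact h2.matrix_conjTranspose.mul h2
  have hcB : Continuous fun A : MN N => Em q * A * Em q := (continuous_const.mul continuous_id).mul continuous_const
  have hA := (hcA.tendsto _).comp hpm
  have hB := (hcB.tendsto _).comp ((hlim n).mono_left hl)
  rw [Matrix.mul_one, Pool.Agent.Helper46.OB.Em_Em h.hN hq] at hB
  refine tendsto_nhds_unique hA (hB.congr fun γ => ?_)
  obtain ⟨c, hc1, hc2⟩ := hc γ
  exact (gram_pq h hq T hT (hO γ) hc1 hc2).symm

include h in
/-- The matrices `dm γ` with comparable middle singular values are bounded. -/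
theorem dm_bound {γ : G} {K : ℝ} (hK : ∀ i j : Fin N, md i → md j → S.s γ i ≤ K * S.s γ j) : dm S q γ ∈ (sr q).Bl (max K 1) := by
  refine ⟨fun i j => ?_, ?_⟩
  · rw [mt_dm, diagonal_apply]
    by_cases hij : i = j
    · rw [if_pos hij, Complex.norm_real, Real.norm_of_nonneg (dv_pos γ i).le]
      unfold dv
      split_ifs with hi
      · have hr : md i.rev := by
          unfold md at hi ⊢
          rw [Fin.val_rev]
          have := i.2
          push Not at hi ⊢
          constructor <;> omega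
        have h1 := h.inv γ i
        have h2 := hK i.rev i hr hi
        have p1 := S.pos γ i
        have p2 := S.pos γ i.rev
        have e1 : (S.s γ i)⁻¹ = S.s γ i.rev := by
          rw [inv_eq_iff_eq_inv]
          exact eq_inv_of_mul_eq_one_left h1
        rw [e1]
        by_contra hne
        push Not at hne
        have h3 : K < S.s γ i.rev := lt_of_le_of_lt (le_max_left _ _) hne
        have h4 : 1 < S.s γ i.rev := lt_of_le_of_lt (le_max_right _ _) hne
        have h5 : S.s γ i < 1 := by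
          by_contra h6
          push Not at h6
          nlinarith
        have h7 : S.s γ i.rev ≤ K * S.s γ i := h2
        have h8 : 0 < K := by
          by_contra h9
          push Not at h9
          nlinarith
        nlinarith
      · exact le_max_right _ _
    · rw [if_neg hij, norm_zero]
      exact le_max_of_le_right zero_le_one
  · have h1 := (mem_MJ h.hN q).1 (dm_mem h (q := q) γ).1
    have h2 := congrArg Matrix.det h1
    rw [det_mul, det_mul, det_conjTranspose] at h2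
    have h3 : (JJ N).det ≠ 0 := by
      intro h4
      have h5 := congrArg Matrix.det (JJ_JJ h.hN)
      rw [det_mul, h4, zero_mul, det_one] at h5
      exact zero_ne_one h5
    have h4 : star ((sr q).mt (dm S q γ)).det * ((sr q).mt (dm S q γ)).det = 1 := by
      have h6 : (star ((sr q).mt (dm S q γ)).det * ((sr q).mt (dm S q γ)).det) * (JJ N).det = 1 * (JJ N).det := by
        rw [one_mul]
        conv_rhs => rw [← h2]
        ring
      exact mul_right_cancel₀ h3 h6
    rw [RCLike.star_def, ← Complex.normSq_eq_conj_mul_self, Complex.normSq_eq_norm_sq] at h4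
    have h5 : ‖((sr q).mt (dm S q γ)).det‖ ^ 2 = 1 := by exact_mod_cast h4
    have h6 := norm_nonneg ((sr q).mt (dm S q γ)).det
    nlinarith

end Pool.Agent.Helper78.OB
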