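import Pool.Agent.Helper78.OB.N1F

/-!
# Project OB (MP_0f6f3f_an), layer TZ, node 1: the blocks of the stratum of the points
-/

set_option autoImplicit false
set_option linter.unusedSectionVars false

open Filter Topology Matrix

namespace Pool.Agent.Helper78.OB

open Pool.Agent.Helper90.RK Pool.Agent.Helper55.OB
open Pool.Agent.Helper96.RK (bJ chStr)

theorem bJ_K1 {N : ℕ} (hN : 5 ≤ N) (i : Fin N) : bJ (K1 N) i = if (i : ℕ) = 0 then 0 else if (i : ℕ) + 1 = N then 2 else 1 := by
  unfold bJ
  have h0 : ∀ k : Fin N, k ∉ K1 N ↔ ((k : ℕ) = 0 ∨ (k : ℕ) + 2 = N) := by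
    intro k
    unfold K1
    rw [Finset.mem_filter]
    have := Finset.mem_univ k
    tauto
  have hi := i.2
  split_ifs with h1 h2
  · rw [Finset.card_eq_zero, Finset.filter_eq_empty_iff]
    rintro k - ⟨hk, -⟩
    rw [Fin.lt_def] at hk
    omega
  · have h3 : (Finset.univ.filter fun k : Fin N => k < i ∧ k ∉ K1 N) = {⟨0, by omega⟩, ⟨N - 2, by omega⟩} := by
      ext k
      rw [Finset.mem_filter, Finset.mem_insert, Finset.mem_singleton, h0, Fin.lt_def, Fin.ext_iff, Fin.ext_iff]
      constructor
      · rintro ⟨-, -, h4⟩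
        rcases h4 with h4 | h4
        · exact Or.inl h4
        · right
          change (k : ℕ) = N - 2
          omega
      · intro h4
        refine ⟨Finset.mem_univ _, ?_, ?_⟩
        · rcases h4 with h4 | h4
          · change (k : ℕ) = 0 at h4
            omega
          · change (k : ℕ) = N - 2 at h4
            omega
        · rcases h4 with h4 | h4
          · exact Or.inl h4
          · right
            change (k : ℕ) = N - 2 at h4
            omega
    rw [h3, Finset.card_pair]
    intro h4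
    have h5 := congrArg Fin.val h4
    change 0 = N - 2 at h5
    omega
  · have h3 : (Finset.univ.filter fun k : Fin N => k < i ∧ k ∉ K1 N) = {⟨0, by omega⟩} := by
      ext k
      rw [Finset.mem_filter, Finset.mem_singleton, h0, Fin.lt_def, Fin.ext_iff]
      constructor
      · rintro ⟨-, h4, h5⟩
        rcases h5 with h5 | h5
        · exact h5
        · omega
      · intro h4
        change (k : ℕ) = 0 at h4
        exact ⟨Finset.mem_univ _, by omega, Or.inl h4⟩
    rw [h3, Finset.card_singleton]

theorem bJ_K1_zero {N : ℕ} (hN : 5 ≤ N) {q : Fin N} (hq : (q : ℕ) = 0) (i : Fin N) : bJ (K1 N) i = 0 ↔ i ≤ q := by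
  rw [bJ_K1 hN, Pool.Agent.Helper46.OB.le_q_iff hq]
  split_ifs with h1 h2 <;> simp [h1]

theorem bJ_K1_one {N : ℕ} (hN : 5 ≤ N) (i : Fin N) : bJ (K1 N) i = 1 ↔ (i : ℕ) ≠ 0 ∧ (i : ℕ) + 1 ≠ N := by
  rw [bJ_K1 hN]
  split_ifs with h1 h2 <;> simp [*]

end Pool.Agent.Helper78.OB
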